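import Pool.Agent.L7h52.QW.Uni2
import Pool.Agent.L7h14.QX.FinH
import Pool.Agent.L7h53.QX.Nz
import Pool.Agent.L7h56.QX.Det
import Pool.Agent.L7h96.NQ.Onex

/-! 26 to 35 points of one multiplicity: the parts put together. -/

set_option autoImplicit false

namespace Pool.Agent.L7h52.QW

open Pool.Agent.H932R3

/-- **26 to 35 points of one multiplicity** -/
theorem uni5 {n : ℕ} (h26 : 26 ≤ n) {m : ℕ} (hm : 1 ≤ m) :
    ∃ F : MvPolynomial (Fin n × Fin 2) ℚ, F ≠ 0 ∧ ∀ {L : Type} [Field L] [CharZero L]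
      (P : Fin n → Fin 2 → L), MvPolynomial.aeval (fun ij : Fin n × Fin 2 => P ij.1 ij.2) F ≠ 0 →
      ∀ d : ℕ, ¬ NewF n m d → ExpDim L (fun _ => m) P d :=
  Pool.Agent.TH864.SX.expDim_of_or' fun _ hd =>
    uni26 L7h43.QU.parts L7h96.NQ.s_ONEX L7h10.QX.s_ONEZ5
      (L7h14.QX.dich29all (L7h14.QX.partsH L7h53.QX.s_NZ L7h56.QX.s_DET))
      (fun h5 h => L7h43.QU.sur35 L7h43.QU.parts L7h43.QU.s_FIVES h5 h) h26 hm hd

end Pool.Agent.L7h52.QW
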