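import Mathlib
import Pool.Agent.TH885.NW.Prop

/-! Counting the multiplicities with a degree in a window, modulo 5. -/

set_option autoImplicit false

namespace Pool.Agent.L7h52.QW

theorem cnt_class5 {r : ℕ} (hr : ¬ IsSquare r) (c : ℕ) {lo hi : ℝ} (hab : lo ≤ hi) {ε : ℝ} (hε : 0 < ε) :
    ∃ M0 : ℝ, ∀ M : ℕ, M0 ≤ M → ∀ B : Finset ℕ, (∀ m ∈ B, m < M) →
      (∀ m ∈ B, ∃ d : ℕ, d % 5 = c ∧ lo ≤ (d : ℝ) - √(r : ℝ) * m ∧ (d : ℝ) - √(r : ℝ) * m ≤ hi) →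
      (B.card : ℝ) ≤ ((hi - lo) / 5 + ε) * M := by
  have hirr : Irrational (√(r : ℝ) / 5) := by
    have := (irrational_sqrt_natCast_iff.2 hr).div_natCast (m := 5) (by norm_num)
    push_cast at this
    exact this
  obtain ⟨M0, hM0⟩ := Pool.Agent.TH885.NW.count_sharp hirr 0 (-(lo - c) / 5) ((hi - c) / 5)
    (by linarith) hε
  refine ⟨M0, fun M hM B hB hbad => ?_⟩
  refine (hM0 M hM B hB fun m hm => ?_).trans_eq (by ring)
  obtain ⟨d, h1, h2, h3⟩ := hbad m hm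
  refine ⟨((d / 5 : ℕ) : ℤ), ?_, ?_⟩
  · have h4 : d = 5 * (d / 5) + c := by omega
    have h5 : (d : ℝ) = 5 * ((d / 5 : ℕ) : ℝ) + c := by exact_mod_cast h4
    rw [h5] at h2
    rw [Int.cast_natCast]
    linarith
  · have h4 : d = 5 * (d / 5) + c := by omega
    have h5 : (d : ℝ) = 5 * ((d / 5 : ℕ) : ℝ) + c := by exact_mod_cast h4
    rw [h5] at h3
    rw [Int.cast_natCast]
    linarith

theorem cnt_classes5 {r : ℕ} (hr : ¬ IsSquare r) (lo hi : ℕ → ℝ) (C : Finset ℕ) :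
    (∀ c ∈ C, lo c ≤ hi c) → ∀ ε : ℝ, 0 < ε → ∃ M0 : ℕ, ∀ M : ℕ, M0 ≤ M →
      (Set.ncard {m : ℕ | m < M ∧ ∃ c ∈ C, ∃ d : ℕ, d % 5 = c ∧ lo c ≤ (d : ℝ) - √(r : ℝ) * m ∧
        (d : ℝ) - √(r : ℝ) * m ≤ hi c} : ℝ) ≤ (∑ c ∈ C, (hi c - lo c) / 5 + ε) * M := by
  classical
  induction C using Finset.induction_on with
  | empty =>
    intro _ ε hε
    refine ⟨0, fun M _ => ?_⟩
    simp only [Finset.notMem_empty, false_and, exists_false, and_false, Set.ofPred_false, Set.ncard_empty,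
      Finset.sum_empty, zero_add, Nat.cast_zero]
    positivity
  | insert c C hc ih =>
    intro hab ε hε
    obtain ⟨M0, hM0⟩ := ih (fun c' hc' => hab c' (Finset.mem_insert_of_mem hc')) (ε / 2) (half_pos hε)
    obtain ⟨M1, hM1⟩ := cnt_class5 hr c (hab c (Finset.mem_insert_self c C)) (half_pos hε)
    refine ⟨max M0 ⌈M1⌉₊, fun M hM => ?_⟩
    have h1 := hM0 M ((le_max_left _ _).trans hM)
    have hMR : M1 ≤ M := (Nat.le_ceil M1).trans (by exact_mod_cast (le_max_right _ _).trans hM)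
    have hfin : ∀ Q : ℕ → Prop, {m : ℕ | m < M ∧ Q m}.Finite := fun Q =>
      (Set.finite_lt_nat M).subset fun m hm => hm.1
    have h2 := hM1 M hMR (hfin fun m => ∃ d : ℕ, d % 5 = c ∧ lo c ≤ (d : ℝ) - √(r : ℝ) * m ∧
        (d : ℝ) - √(r : ℝ) * m ≤ hi c).toFinset (fun m hm => ((Set.Finite.mem_toFinset _).1 hm).1)
      (fun m hm => ((Set.Finite.mem_toFinset _).1 hm).2)
    rw [← Set.ncard_eq_toFinset_card _ (hfin _)] at h2
    rw [Finset.sum_insert hc]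
    have h3 : (Set.ncard {m : ℕ | m < M ∧ ∃ c' ∈ insert c C, ∃ d : ℕ, d % 5 = c' ∧
        lo c' ≤ (d : ℝ) - √(r : ℝ) * m ∧ (d : ℝ) - √(r : ℝ) * m ≤ hi c'}) ≤
        Set.ncard {m : ℕ | m < M ∧ ∃ d : ℕ, d % 5 = c ∧ lo c ≤ (d : ℝ) - √(r : ℝ) * m ∧
          (d : ℝ) - √(r : ℝ) * m ≤ hi c} +
        Set.ncard {m : ℕ | m < M ∧ ∃ c ∈ C, ∃ d : ℕ, d % 5 = c ∧ lo c ≤ (d : ℝ) - √(r : ℝ) * m ∧
          (d : ℝ) - √(r : ℝ) * m ≤ hi c} := by
      refine (Set.ncard_le_ncard ?_ ((hfin _).union (hfin _))).trans (Set.ncard_union_le _ _)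
      rintro m ⟨hm, c', hc', hd⟩
      rcases Finset.mem_insert.1 hc' with rfl | hc'
      · exact Or.inl ⟨hm, hd⟩
      · exact Or.inr ⟨hm, c', hc', hd⟩
    have h4 : ((Set.ncard {m : ℕ | m < M ∧ ∃ c' ∈ insert c C, ∃ d : ℕ, d % 5 = c' ∧
        lo c' ≤ (d : ℝ) - √(r : ℝ) * m ∧ (d : ℝ) - √(r : ℝ) * m ≤ hi c'} : ℕ) : ℝ) ≤ _ :=
      Nat.cast_le.2 h3
    refine h4.trans ?_
    rw [Nat.cast_add]
    refine (add_le_add h2 h1).trans_eq ?_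
    ring

/-- windows `lo c ≤ d - √r m ≤ hi c` in the classes `c` of `d` modulo `5`: the proportion is the sum of the
lengths divided by `5` (the empty windows do not count) -/
theorem cnt5 {r : ℕ} (hr : ¬ IsSquare r) {lo hi : ℕ → ℝ} {Q : ℕ → ℕ → Prop}
    (hQ : ∀ m d, Q m d → lo (d % 5) ≤ (d : ℝ) - √(r : ℝ) * m ∧ (d : ℝ) - √(r : ℝ) * m ≤ hi (d % 5))
    {ε : ℝ} (hε : 0 < ε) : ∃ M0 : ℕ, ∀ M : ℕ, M0 ≤ M →
      (Set.ncard {m : ℕ | m < M ∧ ∃ d, Q m d} : ℝ) ≤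
        (∑ c ∈ Finset.range 5, max 0 (hi c - lo c) / 5 + ε) * M := by
  classical
  obtain ⟨M0, hM0⟩ := cnt_classes5 hr lo hi ((Finset.range 5).filter fun c => lo c ≤ hi c)
    (fun c hc => (Finset.mem_filter.1 hc).2) ε hε
  refine ⟨M0, fun M hM => ?_⟩
  have h1 := hM0 M hM
  have h2 : (Set.ncard {m : ℕ | m < M ∧ ∃ d, Q m d} : ℝ) ≤
      (Set.ncard {m : ℕ | m < M ∧ ∃ c ∈ (Finset.range 5).filter fun c => lo c ≤ hi c, ∃ d : ℕ, d % 5 = c ∧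
        lo c ≤ (d : ℝ) - √(r : ℝ) * m ∧ (d : ℝ) - √(r : ℝ) * m ≤ hi c} : ℝ) := by
    apply Nat.cast_le.2
    refine Set.ncard_le_ncard ?_ ((Set.finite_lt_nat M).subset fun m hm => hm.1)
    rintro m ⟨hm, d, hd⟩
    obtain ⟨h3, h4⟩ := hQ m d hd
    refine ⟨hm, d % 5, ?_, d, rfl, h3, h4⟩
    rw [Finset.mem_filter, Finset.mem_range]
    exact ⟨by omega, h3.trans h4⟩
  refine h2.trans (h1.trans ?_)
  apply mul_le_mul_of_nonneg_right _ (Nat.cast_nonneg M)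
  have h5 : ∑ c ∈ (Finset.range 5).filter (fun c => lo c ≤ hi c), (hi c - lo c) / 5 ≤
      ∑ c ∈ Finset.range 5, max 0 (hi c - lo c) / 5 := by
    rw [Finset.sum_filter]
    apply Finset.sum_le_sum
    intro c _
    split_ifs with h
    · have := le_max_right (0 : ℝ) (hi c - lo c)
      linarith
    · have := le_max_left (0 : ℝ) (hi c - lo c)
      linarith
  linarith

end Pool.Agent.L7h52.QW
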