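import Pool.Agent.L7h43.QU.Stm
import Pool.Agent.TH387.SH.Two

/-! Independence for arbitrary multiplicities at 26 or more points, from the tube around the quintic. -/

set_option autoImplicit false

namespace Pool.Agent.L7h52.QW

open Finset Pool.Agent.TH176.Nag Pool.Agent.TH603.Sur Pool.Agent.TH181.NagM Pool.Agent.TH387.SH
open Pool.Agent.L7h43.QU (S_EMP S_SUR E5 hh)

/-- independence on the triangles of the tube -/
theorem SP_shape5 {ι : Type} [Fintype ι] {w : ι → ℕ} {c s : ℝ} (hc0 : 0 ≤ c) (hs : 5 ≤ s)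
    (h : SP w c 0 (s ^ 2)) (v : ℤ) : SP w c (5 * s - v) (25 - 5 * s + v) := by
  have hcl := SP_closed (w := w) hc0
  have hs0 : 0 < s := by linarith
  have h1 : SP w c (5 * s) (s ^ 2 - 5 * s) := by
    have e : 5 * s + (s ^ 2 - 5 * s) = s ^ 2 := by ring
    refine (Mv.toRT (μ := 5 * s) (ν := s ^ 2 - 5 * s) (by rw [e]; positivity)).closed hcl ?_
    rw [e]
    exact h
  have h2 : SP w c (5 * s - 25) (50 - 5 * s) := by
    refine hcl.stepA 1 25 isCoprime_one_left (by norm_num) (by push_cast; linarith)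
      (by push_cast; linarith) (by linarith) ?_
    have e1 : ((1 : ℤ) : ℝ) * (((1 : ℤ) : ℝ) * (5 * s - 25) + ((25 : ℤ) : ℝ)) = 5 * s := by
      push_cast; ring
    have e2 : (((25 : ℤ) : ℝ) - ((1 : ℤ) : ℝ) * (50 - 5 * s)) * (((1 : ℤ) : ℝ) * (5 * s - 25) +
        ((25 : ℤ) : ℝ)) / (5 * s - 25 + (50 - 5 * s)) = s ^ 2 - 5 * s := by
      push_cast
      have : (5 * s - 25 + (50 - 5 * s) : ℝ) = 25 := by ring
      rw [this]; ring
    rw [e1, e2]
    exact h1
  refine hcl.shear (v - 25) ?_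
  have e3 : 5 * s - (v : ℝ) + ((v - 25 : ℤ) : ℝ) = 5 * s - 25 := by push_cast; ring
  have e4 : 25 - 5 * s + (v : ℝ) - ((v - 25 : ℤ) : ℝ) = 50 - 5 * s := by push_cast; ring
  rw [e3, e4]
  exact h2

/-- the triangle is contained in the exponents of the tube -/
theorem tri_sub5 {τ : ℝ} (h0 : 0 < τ) (h1 : τ < 1) {d : ℕ} {i j : ℤ} (hj : 0 ≤ j)
    (g1 : -(25 * τ * (((d : ℝ) - 1) / 5 - j)) ≤ i)
    (g2 : (i : ℝ) ≤ 25 * (1 - τ) * (((d : ℝ) - 1) / 5 - j)) : ((i, j) : ℤ × ℤ) ∈ E5 τ d := by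
  obtain ⟨n, rfl⟩ := Int.eq_ofNat_of_zero_le hj
  have hη : 0 ≤ ((d : ℝ) - 1) / 5 - ((n : ℤ) : ℝ) := by linarith
  push_cast at hη g1 g2
  have hn4 : 5 * n < d := by
    have : (5 : ℝ) * n < d := by linarith
    exact_mod_cast this
  obtain ⟨e, he⟩ : ∃ e, e = d - 5 * n := ⟨_, rfl⟩
  have hde : (d : ℝ) = e + 5 * n := by
    have : d = e + 5 * n := by omega
    rw [this]; push_cast; ring
  have he0 : e ≠ 0 := by omega
  refine ⟨hj, ?_, ?_, ?_⟩
  · simp only; omega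
  · simp only
    rw [Int.toNat_natCast, ← he]
    by_cases he1 : e = 1
    · subst he1
      have : hh 1 = 3 := rfl
      rw [this]
      push_cast at hde ⊢
      nlinarith
    by_cases he2 : e = 2
    · subst he2
      have : hh 2 = 6 := rfl
      rw [this]
      push_cast at hde ⊢
      nlinarith
    · have hh1 : hh e = 5 * e - 5 := by unfold hh; rw [if_neg he0, if_neg he1, if_neg he2]
      rw [hh1, Nat.cast_sub (by omega)]
      push_cast
      rw [hde] at g1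
      linarith
  · simp only
    rw [Int.toNat_natCast, ← he]
    by_cases he1 : e = 1
    · subst he1
      have : hh 1 = 3 := rfl
      rw [this]
      push_cast at hde ⊢
      nlinarith
    by_cases he2 : e = 2
    · subst he2
      have : hh 2 = 6 := rfl
      rw [this]
      push_cast at hde ⊢
      nlinarith
    · have hh1 : hh e = 5 * e - 5 := by unfold hh; rw [if_neg he0, if_neg he1, if_neg he2]
      rw [hh1, Nat.cast_sub (by omega)]
      push_cast
      rw [hde] at g2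
      linarith

/-- independence on the forms of degree `d` -/
theorem Sur_plane5 (key : S_SUR) {ι : Type} [Fintype ι] (hn : 26 ≤ Fintype.card ι) {w : ι → ℕ} {b d : ℕ}
    (hb : ∀ i, w i ≤ b + 1)
    (h : (Fintype.card ι : ℝ) + ((∑ i, max (w i) b : ℕ) : ℝ) < √(Fintype.card ι) * (d + 4)) :
    Sur w (TZ d) := by
  obtain ⟨N, hN⟩ : ∃ N : ℝ, N = (Fintype.card ι : ℝ) := ⟨_, rfl⟩
  have hN17 : 26 ≤ N := by rw [hN]; exact_mod_cast hn
  rw [← hN] at h
  obtain ⟨r, hr⟩ : ∃ r : ℝ, r = √N := ⟨_, rfl⟩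
  have hr2 : r ^ 2 = N := by rw [hr]; exact Real.sq_sqrt (by linarith)
  have hr3 : 5 < r := by
    rw [hr]
    rw [Real.lt_sqrt (by norm_num)]
    linarith
  obtain ⟨M, hM⟩ : ∃ M : ℝ, M = ((∑ i, max (w i) b : ℕ) : ℝ) := ⟨_, rfl⟩
  have hM0 : 0 ≤ M := by rw [hM]; positivity
  rw [← hM, ← hr] at h
  -- the offset
  obtain ⟨v, hv⟩ : ∃ v : ℤ, v = ⌈5 * r⌉ - 6 := ⟨_, rfl⟩
  have hv1 : 5 * r - 6 ≤ v := by
    rw [hv]; push_cast; have := Int.le_ceil (5 * r); linarith
  have hv2 : (v : ℝ) < 5 * r - 5 := by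
    rw [hv]; push_cast; have := Int.ceil_lt_add_one (5 * r); linarith
  -- choose an irrational number slightly smaller than `r`
  obtain ⟨lo, hlo⟩ : ∃ lo : ℝ, lo = max (max 5 (r - 1 / 6)) ((N + M) / (d + 4)) := ⟨_, rfl⟩
  have hd3 : (0 : ℝ) < d + 4 := by positivity
  have hlor : lo < r := by
    rw [hlo]
    refine max_lt (max_lt hr3 (by linarith)) ?_
    rw [div_lt_iff₀ hd3]
    exact h
  obtain ⟨s, hs, hs1, hs2⟩ := exists_irrational_btwn hlor
  have a1 : 5 < s := lt_of_le_of_lt (by rw [hlo]; exact (le_max_left _ _).trans (le_max_left _ _)) hs1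
  have a2 : r - 1 / 6 < s :=
    lt_of_le_of_lt (by rw [hlo]; exact (le_max_right _ _).trans (le_max_left _ _)) hs1
  have a4 : (N + M) / (d + 4) < s :=
    lt_of_le_of_lt (by rw [hlo]; exact le_max_right _ _) hs1
  rw [div_lt_iff₀ hd3] at a4
  have hs0 : 0 < s := by linarith
  have hsq : s ^ 2 < N := by rw [← hr2]; nlinarith
  have hsr : √(s ^ 2) = s := Real.sqrt_sq hs0.le
  obtain ⟨c, hc⟩ : ∃ c : ℝ, c = (s ^ 2 + M) / s := ⟨_, rfl⟩
  have hc0 : 0 ≤ c := by rw [hc]; positivity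
  have hcd : c < d + 4 := by
    rw [hc, div_lt_iff₀ hs0]
    linarith
  have h1 : SP w c 0 (s ^ 2) := by
    refine SP_final' w b hb (by positivity) (by rw [← hN]; exact hsq.le) ?_
    rw [hsr, hc, div_mul_cancel₀ _ hs0.ne', ← hM]
  have h2 := SP_shape5 hc0 a1.le h1 v
  -- the slope of the tube
  obtain ⟨τ, hτ⟩ : ∃ τ : ℝ, τ = (5 * s - v) / 25 := ⟨_, rfl⟩
  have hτ0 : 0 < τ := by rw [hτ]; linarith
  have hτ1 : τ < 1 / 2 := by rw [hτ]; linarith
  have hirr : Irrational τ := by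
    have e : τ = (((1 / 5 : ℚ)) : ℝ) * s - (((v / 25 : ℚ)) : ℝ) := by
      rw [hτ]; push_cast; ring
    rw [e]
    exact (hs.ratCast_mul (by norm_num)).sub_ratCast _
  have h3 := h2.2 (d + 4) hcd (-(5 * ((d : ℝ) + 4) * τ))
  have e9 : 5 * s - (v : ℝ) + (25 - 5 * s + v) = 5 ^ 2 := by ring
  rw [e9, Real.sqrt_sq (by norm_num)] at h3
  refine key ι w d τ hτ0 hτ1 hirr ?_
  refine h3.shift 0 1 ?_
  rintro ⟨a, y⟩ ⟨h4, h5, h6⟩
  simp only at h4 h5 h6
  refine tri_sub5 hτ0 (by linarith) (by simp only; omega) ?_ ?_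
  · push_cast
    have : 5 * s - (v : ℝ) = 25 * τ := by rw [hτ]; ring
    rw [this] at h5
    linarith
  · push_cast
    have : 25 - 5 * s + (v : ℝ) = 25 * (1 - τ) := by rw [hτ]; ring
    rw [this] at h6
    linarith

end Pool.Agent.L7h52.QW
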