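import Pool.Agent.L7h43.QU.Nag
import Pool.Agent.L7h52.QW.Ind
import Pool.Agent.TH864.SX.Eleven

/-! 26 to 36 points of one multiplicity, and arbitrary multiplicities at 26 or more points. -/

set_option autoImplicit false

namespace Pool.Agent.L7h52.QW

open Finset Pool.Agent.TH176.Nag Pool.Agent.TH603.Sur Pool.Agent.TH603.Cut Pool.Agent.H932R3
open Pool.Agent.L7h43.QU

/-- the lower end of the window -/
noncomputable def low5 (r d : ℕ) : ℝ :=
  if d % 5 = 0 then 1 - 1 / √(r : ℝ) else if d % 5 = 1 then 1 - 2 / √(r : ℝ) else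
    if d % 5 = 2 then 18 / 19 else 1

/-- **arbitrary multiplicities at 26 or more points** -/
theorem exp26 (hE : S_EMP) (hS : S_SUR) (hX : Pool.Agent.L7h52.NQ.S_ONEX) {n : ℕ} (hn : 26 ≤ n)
    (w : Fin n → ℕ) :
    ∃ F : MvPolynomial (Fin n × Fin 2) ℚ, F ≠ 0 ∧ ∀ {L : Type} [Field L] [CharZero L]
      (P : Fin n → Fin 2 → L), MvPolynomial.aeval (fun ij : Fin n × Fin 2 => P ij.1 ij.2) F ≠ 0 →
      ∀ d : ℕ, ((3 ≤ d % 5 ∧ √(n : ℝ) * ((d : ℝ) - 1) < ∑ i, (w i : ℝ)) ∨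
        (2 ≤ d % 5 ∧ √(n : ℝ) * ((d : ℝ) - 18 / 19) < ∑ i, (w i : ℝ)) ∨
        (d % 5 ≠ 1 ∧ (∃ i, 1 ≤ w i) ∧ √(n : ℝ) * ((d : ℝ) - 1) + 1 < ∑ i, (w i : ℝ)) ∨
        ((∃ i j, i ≠ j ∧ 1 ≤ w i ∧ 1 ≤ w j) ∧ √(n : ℝ) * ((d : ℝ) - 1) + 2 < ∑ i, (w i : ℝ)) ∨
        ∃ b : ℕ, (∀ i, w i ≤ b + 1) ∧
          (n : ℝ) + ((∑ i, max (w i) b : ℕ) : ℝ) < √(n : ℝ) * (d + 4)) → ExpDim L w P d := by
  refine Pool.Agent.TH864.SX.expDim_of_or' fun d hd => ?_
  rcases hd with h | h | h | h | ⟨b, h1, h2⟩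
  · left
    refine nag25 hE (by rw [Fintype.card_fin]; omega) (Or.inl ⟨h.1, ?_⟩)
    rw [Fintype.card_fin]
    exact h.2
  · left
    refine nag25 hE (by rw [Fintype.card_fin]; omega) (Or.inr ⟨h.1, ?_⟩)
    rw [Fintype.card_fin]
    exact h.2
  · left
    refine nag25z hE hX (by rw [Fintype.card_fin]; omega) (Or.inl ⟨h.1, h.2.1, ?_⟩)
    rw [Fintype.card_fin]
    exact h.2.2
  · left
    refine nag25z hE hX (by rw [Fintype.card_fin]; omega) (Or.inr ⟨h.1, ?_⟩)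
    rw [Fintype.card_fin]
    exact h.2
  · right
    refine Sur_plane5 hS (by rw [Fintype.card_fin]; omega) h1 ?_
    rw [Fintype.card_fin]
    exact h2

/-- the windows of the general method, one multiplicity -/
theorem uni_gen (hE : S_EMP) (hS : S_SUR) (hX : Pool.Agent.L7h52.NQ.S_ONEX) {n : ℕ} (hn : 26 ≤ n)
    {m : ℕ} (hm : 1 ≤ m) :
    ∃ F : MvPolynomial (Fin n × Fin 2) ℚ, F ≠ 0 ∧ ∀ {L : Type} [Field L] [CharZero L]
      (P : Fin n → Fin 2 → L), MvPolynomial.aeval (fun ij : Fin n × Fin 2 => P ij.1 ij.2) F ≠ 0 →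
      ∀ d : ℕ, ¬ (low5 n d ≤ (d : ℝ) - √(n : ℝ) * m ∧ (d : ℝ) - √(n : ℝ) * m ≤ √(n : ℝ) - 4) →
        ExpDim L (fun _ => m) P d := by
  obtain ⟨F, hF, hF'⟩ := exp26 hE hS hX hn (fun _ => m)
  refine ⟨F, hF, fun {L} _ _ P hP d hd => hF' P hP d ?_⟩
  have hnR : (26 : ℝ) ≤ n := by exact_mod_cast hn
  obtain ⟨s, hs⟩ : ∃ s : ℝ, s = √(n : ℝ) := ⟨_, rfl⟩
  have hs2 : s * s = n := by rw [hs]; exact Real.mul_self_sqrt (by linarith)
  have hs0 : 0 < s := by rw [hs]; exact Real.sqrt_pos.2 (by linarith)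
  have hsum : ∑ _i : Fin n, ((m : ℕ) : ℝ) = s * (s * m) := by
    rw [Finset.sum_const, Finset.card_univ, Fintype.card_fin, nsmul_eq_mul, ← hs2]
    ring
  rw [hsum, ← hs]
  rw [← hs] at hd
  by_cases h1 : (d : ℝ) - s * m ≤ s - 4
  · have h2 : (d : ℝ) - s * m < low5 n d := by
      by_contra hcon
      exact hd ⟨not_lt.1 hcon, h1⟩
    unfold low5 at h2
    rw [← hs] at h2
    split_ifs at h2 with h3 h4 h5
    · right; right; left
      refine ⟨by omega, ⟨⟨0, by omega⟩, hm⟩, ?_⟩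
      have h5 : s * ((d : ℝ) - s * m) < s * (1 - 1 / s) := mul_lt_mul_of_pos_left h2 hs0
      have h6 : s * (1 - 1 / s) = s - 1 := by field_simp
      rw [h6] at h5
      linarith
    · right; right; right; left
      refine ⟨⟨⟨0, by omega⟩, ⟨1, by omega⟩, by simp [Fin.ext_iff], hm, hm⟩, ?_⟩
      have h5 : s * ((d : ℝ) - s * m) < s * (1 - 2 / s) := mul_lt_mul_of_pos_left h2 hs0
      have h6 : s * (1 - 2 / s) = s - 2 := by field_simp
      rw [h6] at h5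
      linarith
    · right; left
      refine ⟨by omega, mul_lt_mul_of_pos_left (by linarith) hs0⟩
    · left
      refine ⟨by omega, mul_lt_mul_of_pos_left (by linarith) hs0⟩
  · right; right; right; right
    refine ⟨m - 1, fun _ => by omega, ?_⟩
    have h2 : ((∑ _i : Fin n, max m (m - 1) : ℕ) : ℝ) = s * (s * m) := by
      rw [max_eq_left (by omega), Nat.cast_sum]
      exact hsum
    rw [h2, ← hs2]
    have h3 : s * (s + s * m) < s * (d + 4) := mul_lt_mul_of_pos_left (by linarith) hs0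
    linarith

end Pool.Agent.L7h52.QW
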