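import Pool.Agent.L7h52.QW.Uni
import Pool.Agent.L7h52.QW.Cnt
import Pool.Agent.L7h43.QU.Num

/-! 26 to 35 points of one multiplicity. -/

set_option autoImplicit false

namespace Pool.Agent.L7h52.QW

open Finset Pool.Agent.TH176.Nag Pool.Agent.TH603.Sur Pool.Agent.TH603.Cut Pool.Agent.H932R3
open Pool.Agent.L7h43.QU

/-- **emptiness or independence** for 26 or more points of one multiplicity -/
theorem gen_dich (hE : S_EMP) (hS : S_SUR) (hX : Pool.Agent.L7h52.NQ.S_ONEX) {n : ℕ} (hn : 26 ≤ n)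
    {m : ℕ} (hm : 1 ≤ m) {d : ℕ}
    (hd : ¬ (low5 n d ≤ (d : ℝ) - √(n : ℝ) * m ∧ (d : ℝ) - √(n : ℝ) * m ≤ √(n : ℝ) - 4)) :
    Emp (fun _ : Fin n => m) (TZ d) ∨ Sur (fun _ : Fin n => m) (TZ d) := by
  have hnR : (26 : ℝ) ≤ n := by exact_mod_cast hn
  obtain ⟨s, hs⟩ : ∃ s : ℝ, s = √(n : ℝ) := ⟨_, rfl⟩
  have hs2 : s * s = n := by rw [hs]; exact Real.mul_self_sqrt (by linarith)
  have hs0 : 0 < s := by rw [hs]; exact Real.sqrt_pos.2 (by linarith)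
  have hsum : ∑ _i : Fin n, ((m : ℕ) : ℝ) = s * (s * m) := by
    rw [Finset.sum_const, Finset.card_univ, Fintype.card_fin, nsmul_eq_mul, ← hs2]
    ring
  rw [← hs] at hd
  by_cases h1 : (d : ℝ) - s * m ≤ s - 4
  · left
    have h2 : (d : ℝ) - s * m < low5 n d := by
      by_contra hcon
      exact hd ⟨not_lt.1 hcon, h1⟩
    unfold low5 at h2
    rw [← hs] at h2
    split_ifs at h2 with h3 h4 h5
    · refine nag25z hE hX (by rw [Fintype.card_fin]; omega) (Or.inl ⟨by omega, ⟨⟨0, by omega⟩, hm⟩, ?_⟩)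
      rw [Fintype.card_fin, ← hs, hsum]
      have h5 : s * ((d : ℝ) - s * m) < s * (1 - 1 / s) := mul_lt_mul_of_pos_left h2 hs0
      have h6 : s * (1 - 1 / s) = s - 1 := by field_simp
      rw [h6] at h5
      linarith
    · refine nag25z hE hX (by rw [Fintype.card_fin]; omega)
        (Or.inr ⟨⟨⟨0, by omega⟩, ⟨1, by omega⟩, by simp [Fin.ext_iff], hm, hm⟩, ?_⟩)
      rw [Fintype.card_fin, ← hs, hsum]
      have h5 : s * ((d : ℝ) - s * m) < s * (1 - 2 / s) := mul_lt_mul_of_pos_left h2 hs0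
      have h6 : s * (1 - 2 / s) = s - 2 := by field_simp
      rw [h6] at h5
      linarith
    · refine nag25 hE (by rw [Fintype.card_fin]; omega) (Or.inr ⟨by omega, ?_⟩)
      rw [Fintype.card_fin, ← hs, hsum]
      exact mul_lt_mul_of_pos_left (by linarith) hs0
    · refine nag25 hE (by rw [Fintype.card_fin]; omega) (Or.inl ⟨by omega, ?_⟩)
      rw [Fintype.card_fin, ← hs, hsum]
      exact mul_lt_mul_of_pos_left (by linarith) hs0
  · right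
    refine Sur_plane5 hS (b := m - 1) (by rw [Fintype.card_fin]; omega) (fun _ => by omega) ?_
    rw [Fintype.card_fin]
    have h2 : ((∑ _i : Fin n, max m (m - 1) : ℕ) : ℝ) = s * (s * m) := by
      rw [max_eq_left (by omega), Nat.cast_sum]
      exact hsum
    rw [h2, ← hs, ← hs2]
    have h3 : s * (s + s * m) < s * (d + 4) := mul_lt_mul_of_pos_left (by linarith) hs0
    linarith

/-- the lower end of the windows -/
noncomputable def lo (r d : ℕ) : ℝ :=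
  if r = 27 ∧ d % 5 = 0 then (√(r : ℝ) - 3) / 2 - 1 / √(r : ℝ)
  else if d % 5 = 0 then 1 - 1 / √(r : ℝ) else if d % 5 = 1 then 1 - 2 / √(r : ℝ)
  else if d % 5 = 2 ∧ r ≠ 27 then 18 / 19 else 1

/-- the upper end of the windows, `0` if there is none -/
noncomputable def hi (r d : ℕ) : ℝ :=
  if r = 29 ∨ (r = 27 ∨ r = 35) ∧ 3 ≤ d % 5 then 0
  else if r = 27 ∨ r = 35 ∧ d % 5 ≠ 1 then (√(r : ℝ) - 3) / 2 else √(r : ℝ) - 4

/-- the degrees left open by the quintics -/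
def NewF (r m d : ℕ) : Prop := lo r d ≤ (d : ℝ) - √(r : ℝ) * m ∧ (d : ℝ) - √(r : ℝ) * m ≤ hi r d

theorem lo_gen {r : ℕ} (h : r ≠ 27) (d : ℕ) : lo r d = low5 r d := by
  unfold lo low5
  rw [if_neg (fun g => h g.1)]
  by_cases g0 : d % 5 = 0
  · rw [if_pos g0, if_pos g0]
  by_cases g1 : d % 5 = 1
  · rw [if_neg g0, if_neg g0, if_pos g1, if_pos g1]
  by_cases g2 : d % 5 = 2
  · rw [if_neg g0, if_neg g0, if_neg g1, if_neg g1, if_pos g2, if_pos ⟨g2, h⟩]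
  · rw [if_neg g0, if_neg g0, if_neg g1, if_neg g1, if_neg g2, if_neg (fun h => g2 h.1)]

theorem hi_gen {r : ℕ} {d : ℕ} (h1 : ¬ (r = 29 ∨ (r = 27 ∨ r = 35) ∧ 3 ≤ d % 5))
    (h2 : ¬ (r = 27 ∨ r = 35 ∧ d % 5 ≠ 1)) : hi r d = √(r : ℝ) - 4 := by
  unfold hi
  rw [if_neg h1, if_neg h2]

theorem hi_low {r : ℕ} {d : ℕ} (h1 : ¬ (r = 29 ∨ (r = 27 ∨ r = 35) ∧ 3 ≤ d % 5))
    (h2 : r = 27 ∨ r = 35 ∧ d % 5 ≠ 1) : hi r d = (√(r : ℝ) - 3) / 2 := by
  unfold hi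
  rw [if_neg h1, if_pos h2]

/-- **26 to 35 points of one multiplicity** -/
theorem uni26 (P : Parts) (hX : Pool.Agent.L7h52.NQ.S_ONEX) (hZ : Pool.Agent.L7h14.QX.S_ONEZ5)
    (h29 : ∀ m d : ℕ, Emp (fun _ : Fin 29 => m) (TZ d) ∨ Sur (fun _ : Fin 29 => m) (TZ d))
    (h35 : ∀ {m d : ℕ}, d % 5 ≠ 1 → 35 * (2 * (m : ℝ) + 1) ≤ √((35 : ℕ) : ℝ) * (2 * d + 3) →
      Sur (fun _ : Fin 35 => m) (TZ d))
    {n : ℕ} (h26 : 26 ≤ n) {m : ℕ} (hm : 1 ≤ m) {d : ℕ} (hd : ¬ NewF n m d) :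
    Emp (fun _ : Fin n => m) (TZ d) ∨ Sur (fun _ : Fin n => m) (TZ d) := by
  by_cases h1 : n = 29
  · subst h1
    exact h29 m d
  by_cases h2 : n = 27
  · subst h2
    refine dich27' P hX hZ fun h => hd ?_
    have e : √((27 : ℕ) : ℝ) * √((27 : ℕ) : ℝ) = 27 := by
      rw [Real.mul_self_sqrt (by norm_num)]; norm_num
    have h0 : 0 < √((27 : ℕ) : ℝ) := Real.sqrt_pos.2 (by norm_num)
    have h4 : ¬ 3 ≤ d % 5 := by
      rcases h.2 with g | g | g <;> omega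
    have hhi : hi 27 d = (√((27 : ℕ) : ℝ) - 3) / 2 := hi_low (by omega) (Or.inl rfl)
    have hlo : lo 27 d = if d % 5 = 0 then (√((27 : ℕ) : ℝ) - 3) / 2 - 1 / √((27 : ℕ) : ℝ) else
        if d % 5 = 1 then 1 - 2 / √((27 : ℕ) : ℝ) else 1 := by
      unfold lo
      by_cases g0 : d % 5 = 0
      · rw [if_pos ⟨rfl, g0⟩, if_pos g0]
      by_cases g1 : d % 5 = 1
      · rw [if_neg (fun g => g0 g.2), if_neg g0, if_neg g0, if_pos g1, if_pos g1]
      · rw [if_neg (fun g => g0 g.2), if_neg g0, if_neg g0, if_neg g1, if_neg g1,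
          if_neg (fun g => g.2 rfl)]
    unfold NewF
    rw [hlo, hhi]
    obtain ⟨s, hs⟩ : ∃ s : ℝ, s = √((27 : ℕ) : ℝ) := ⟨_, rfl⟩
    rw [← hs] at e h0 h ⊢
    obtain ⟨g1, g2⟩ := h
    have h3 : (d : ℝ) - s * m ≤ (s - 3) / 2 := by
      have h5 : s * (2 * d + 3) < s * (s * (2 * m + 1)) := by
        rw [← mul_assoc, e]; exact g1
      have h6 := lt_of_mul_lt_mul_left h5 h0.le
      linarith
    refine ⟨?_, h3⟩
    rcases g2 with g | g | g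
    · rw [if_pos g.1]
      have h5 : 1 / s * (27 * (2 * (m : ℝ) + 1) - 2) ≤ 1 / s * (s * (2 * d + 3)) :=
        mul_le_mul_of_nonneg_left g.2 (by positivity)
      have h6 : 1 / s * (s * (2 * (d : ℝ) + 3)) = 2 * d + 3 := by field_simp
      have h7 : 1 / s * (27 * (2 * (m : ℝ) + 1) - 2) = s * (2 * m + 1) - 2 * (1 / s) := by
        rw [← e]; field_simp
      rw [h6, h7] at h5
      linarith
    · rw [if_neg (by omega), if_pos g.1]
      exact g.2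
    · rw [if_neg (by omega), if_neg (by omega)]
      exact g.2
  by_cases h3 : n = 35 ∧ 3 ≤ d % 5
  · obtain ⟨rfl, h4⟩ := h3
    exact dich35 P h4
  by_cases h4 : n = 35 ∧ d % 5 ≠ 1 ∧ (√((35 : ℕ) : ℝ) - 3) / 2 < (d : ℝ) - √((35 : ℕ) : ℝ) * m
  · obtain ⟨rfl, h5, h6⟩ := h4
    right
    refine h35 h5 ?_
    have e : √((35 : ℕ) : ℝ) * √((35 : ℕ) : ℝ) = 35 := by
      rw [Real.mul_self_sqrt (by norm_num)]; norm_num
    have h0 : 0 < √((35 : ℕ) : ℝ) := Real.sqrt_pos.2 (by norm_num)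
    obtain ⟨s, hs⟩ : ∃ s : ℝ, s = √((35 : ℕ) : ℝ) := ⟨_, rfl⟩
    rw [← hs] at e h0 h6 ⊢
    rw [← e, mul_assoc]
    refine mul_le_mul_of_nonneg_left ?_ h0.le
    linarith
  refine gen_dich P.emp P.sur hX h26 hm fun h5 => hd ?_
  unfold NewF
  rw [lo_gen h2]
  refine ⟨h5.1, ?_⟩
  by_cases h7 : n = 35 ∧ d % 5 ≠ 1
  · rw [hi_low (by omega) (Or.inr h7)]
    by_contra hcon
    obtain ⟨rfl, h8⟩ := h7
    exact h4 ⟨rfl, h8, not_le.1 hcon⟩
  · rw [hi_gen (by omega) (by omega)]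
    exact h5.2

end Pool.Agent.L7h52.QW
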